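import Mathlib
import Pool.Agent.Results.MP_5d630e_co.SquareRoot

/-!
# Every binary word of length `n` has at least `c √n` distinct abelian squares
-/

set_option autoImplicit false

namespace Pool.Agent.Results.MP_c8175e_co.SquareRoot

/-- Parikh vector of a binary word (`true` = a, `false` = b). -/
def parikh (u : List Bool) : ℕ × ℕ := (u.count true, u.count false)

/-- The distinct abelian squares of `w`: the words `uv` with `u`, `v` nonempty,
`P(u) = P(v)`, that are factors of `w`. -/
def abSquares (w : List Bool) : Set (List Bool) :=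
  {x | ∃ u v : List Bool, x = u ++ v ∧ u ≠ [] ∧ v ≠ [] ∧ parikh u = parikh v ∧ x <:+: w}

/-- `MDL(n)`: the least number of distinct abelian squares in a binary word of length `n`. -/
noncomputable def MDL (n : ℕ) : ℕ :=
  sInf {k | ∃ w : List Bool, w.length = n ∧ (abSquares w).ncard = k}

theorem finite_abSquares (w : List Bool) : (abSquares w).Finite := by
  classical
  apply Set.Finite.subset (w.sublists.toFinset.finite_toSet)
  rintro x ⟨u, v, _, _, _, _, h⟩
  rw [Finset.mem_coe, List.mem_toFinset, List.mem_sublists]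
  exact h.sublist

theorem ncard_le (w : List Bool) :
    (MP_5d630e_co.SquareRoot.sqClasses w).ncard ≤ (abSquares w).ncard := by
  classical
  have hsub : MP_5d630e_co.SquareRoot.sqClasses w ⊆
      (fun x : List Bool => (x.count true / 2, x.count false / 2)) '' (abSquares w) := by
    rintro P ⟨u, v, hu, hv, hi, hP, hQ⟩
    have hP1 : (u.count true, u.count false) = P := hP
    have hQ1 : (v.count true, v.count false) = P := hQ
    refine ⟨u ++ v, ⟨u, v, rfl, hu, hv, ?_, hi⟩, ?_⟩
    · show (u.count true, u.count false) = (v.count true, v.count false)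
      rw [hP1, hQ1]
    · show ((u ++ v).count true / 2, (u ++ v).count false / 2) = P
      have h1 : v.count true = P.1 := congrArg Prod.fst hQ1
      have h2 : v.count false = P.2 := congrArg Prod.snd hQ1
      have h3 : u.count true = P.1 := congrArg Prod.fst hP1
      have h4 : u.count false = P.2 := congrArg Prod.snd hP1
      rw [List.count_append, List.count_append, h1, h2, h3, h4]
      refine Prod.ext ?_ ?_
      · show (P.1 + P.1) / 2 = P.1
        omega
      · show (P.2 + P.2) / 2 = P.2
        omega
  exact le_trans (Set.ncard_le_ncard hsub ((finite_abSquares w).image _))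
    (Set.ncard_image_le (finite_abSquares w))

theorem word_bound (w : List Bool) :
    w.length ≤ 24 * ((abSquares w).ncard + 1) ^ 2 + 4 * ((abSquares w).ncard + 1) := by
  have h1 := MP_5d630e_co.SquareRoot.word_bound w
  have h2 : (MP_5d630e_co.SquareRoot.sqClasses w).ncard + 1 ≤ (abSquares w).ncard + 1 :=
    Nat.add_le_add_right (ncard_le w) 1
  have h3 := Nat.pow_le_pow_left h2 2
  omega

theorem MDL_bound (n : ℕ) : n ≤ 24 * (MDL n + 1) ^ 2 + 4 * (MDL n + 1) := by
  have hne : {k | ∃ w : List Bool, w.length = n ∧ (abSquares w).ncard = k}.Nonempty :=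
    ⟨_, List.replicate n true, by simp, rfl⟩
  obtain ⟨w, hw, hk⟩ := Nat.sInf_mem hne
  have := word_bound w
  rw [hk, hw] at this
  exact this

theorem MDL_real (n : ℕ) : (Real.sqrt n - 6) / 5 ≤ (MDL n : ℝ) := by
  have h := MDL_bound n
  have h1 : (n : ℝ) ≤ 24 * ((MDL n : ℝ) + 1) ^ 2 + 4 * ((MDL n : ℝ) + 1) := by exact_mod_cast h
  have h2 : (0 : ℝ) ≤ (MDL n : ℝ) := Nat.cast_nonneg _
  have h3 : Real.sqrt n ≤ 5 * ((MDL n : ℝ) + 1) + 1 := by
    refine Real.sqrt_le_iff.mpr ⟨by linarith, ?_⟩
    nlinarith
  linarith

/-- **`MDL(n)` is at least of the order `√n`.** Every binary word of length `n` has at least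
`(√n - 6) / 5` distinct abelian squares; if `k` is their number then
`n ≤ 24 (k + 1)² + 4 (k + 1)`. -/
theorem result :
    (∀ n : ℕ, (Real.sqrt n - 6) / 5 ≤ (MDL n : ℝ)) ∧
    (∀ w : List Bool,
      w.length ≤ 24 * ((abSquares w).ncard + 1) ^ 2 + 4 * ((abSquares w).ncard + 1)) :=
  ⟨MDL_real, word_bound⟩

end Pool.Agent.Results.MP_c8175e_co.SquareRoot
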